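import Mathlib

/-!
# The 3-neighbour bootstrap process on the strong product of two paths: exact minimum

`m_3(m,n)` is the least number of initially infected cells of the strong product `P_m ⊠ P_n` (the
graph of king moves on the `m × n` board) that infect all cells when a cell becomes infected as soon
as three of its neighbours are infected.  For `m, n ≥ 1` it is

* `max m n` if `min m n = 1`,
* `⌊max m n / 2⌋ + 2` if `min m n = 2`,
* `3` if `min m n ≥ 3`.

The lower bound for boards with two rows: two adjacent columns without initially infected cells are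
never infected, nor is the first or the last column without such a cell, and the first cell that
becomes infected has three initially infected neighbours.
-/

set_option autoImplicit false

namespace Pool.Agent.Results.MP_87c242_co.ExactValues

open Finset

/-- The cells of the `m × n` board. -/
abbrev Cell (m n : ℕ) := Fin m × Fin n

/-- Adjacency in the strong product `P_m ⊠ P_n`: two distinct cells whose rows differ by at most one
and whose columns differ by at most one. -/
def Adj {m n : ℕ} (p q : Cell m n) : Prop :=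
  p ≠ q ∧ |((p.1 : ℕ) : ℤ) - ((q.1 : ℕ) : ℤ)| ≤ 1 ∧ |((p.2 : ℕ) : ℤ) - ((q.2 : ℕ) : ℤ)| ≤ 1

open Classical in
/-- One round of the `r`-neighbour process. -/
noncomputable def step {m n : ℕ} (r : ℕ) (A : Finset (Cell m n)) : Finset (Cell m n) :=
  A ∪ univ.filter fun v => r ≤ (A.filter fun w => Adj v w).card

/-- The set `A` of initially infected cells infects all cells. -/
def Infects {m n : ℕ} (r : ℕ) (A : Finset (Cell m n)) : Prop :=
  ∀ v, ∃ t : ℕ, v ∈ (step r)^[t] A

/-- `m_3(m,n)`: the least number of initially infected cells from which the 3-neighbour process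
infects all cells of `P_m ⊠ P_n`. -/
noncomputable def m3 (m n : ℕ) : ℕ :=
  sInf {k | ∃ A : Finset (Cell m n), A.card = k ∧ Infects 3 A}

section Basic

variable {m n : ℕ}

theorem Adj.symm {p q : Cell m n} (h : Adj p q) : Adj q p := by
  refine ⟨h.1.symm, ?_, ?_⟩
  · rw [abs_sub_comm]; exact h.2.1
  · rw [abs_sub_comm]; exact h.2.2

theorem subset_step (r : ℕ) (A : Finset (Cell m n)) : A ⊆ step r A := by
  unfold step
  exact subset_union_left

theorem iter_mono (r : ℕ) (A : Finset (Cell m n)) {s t : ℕ} (h : s ≤ t) :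
    (step r)^[s] A ⊆ (step r)^[t] A := by
  obtain ⟨k, rfl⟩ := Nat.exists_eq_add_of_le h
  induction k with
  | zero => exact subset_rfl
  | succ k ih =>
    have : (step r)^[s + (k + 1)] A = step r ((step r)^[s + k] A) := by
      rw [← Function.iterate_succ_apply' (step r)]
      rfl
    rw [this]
    exact (ih (Nat.le_add_right _ _)).trans (subset_step r _)

/-- infected at some time -/
def Inf (A : Finset (Cell m n)) (v : Cell m n) : Prop := ∃ t : ℕ, v ∈ (step 3)^[t] A

theorem Inf.of_mem {A : Finset (Cell m n)} {v : Cell m n} (h : v ∈ A) : Inf A v := ⟨0, h⟩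

theorem mem_step {r : ℕ} {A : Finset (Cell m n)} {v : Cell m n} :
    v ∈ step r A ↔ v ∈ A ∨ ∃ B : Finset (Cell m n), B ⊆ A ∧ r ≤ B.card ∧ ∀ w ∈ B, Adj v w := by
  classical
  unfold step
  rw [mem_union, mem_filter]
  constructor
  · rintro (h | ⟨-, h⟩)
    · exact Or.inl h
    · exact Or.inr ⟨_, filter_subset _ _, h, fun w hw => (mem_filter.1 hw).2⟩
  · rintro (h | ⟨B, hB, hc, hw⟩)
    · exact Or.inl h
    · refine Or.inr ⟨mem_univ _, hc.trans (card_le_card ?_)⟩
      intro x hx
      rw [mem_filter]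
      exact ⟨hB hx, hw x hx⟩

/-- a cell with three infected neighbours becomes infected -/
theorem Inf.of_three {A : Finset (Cell m n)} {v a b c : Cell m n} (ha : Inf A a) (hb : Inf A b)
    (hc : Inf A c) (hab : a ≠ b) (hac : a ≠ c) (hbc : b ≠ c) (h1 : Adj v a) (h2 : Adj v b)
    (h3 : Adj v c) : Inf A v := by
  classical
  obtain ⟨s, hs⟩ := ha
  obtain ⟨t, ht⟩ := hb
  obtain ⟨u, hu⟩ := hc
  refine ⟨max s (max t u) + 1, ?_⟩
  rw [Function.iterate_succ_apply', mem_step]
  right
  refine ⟨{a, b, c}, ?_, ?_, ?_⟩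
  · intro x hx
    simp only [mem_insert, mem_singleton] at hx
    rcases hx with rfl | rfl | rfl
    · exact iter_mono 3 A (le_max_left _ _) hs
    · exact iter_mono 3 A ((le_max_left _ _).trans (le_max_right _ _)) ht
    · exact iter_mono 3 A ((le_max_right _ _).trans (le_max_right _ _)) hu
  · rw [card_insert_of_notMem, card_insert_of_notMem, card_singleton]
    · simpa using hbc
    · simp only [mem_insert, mem_singleton, not_or]
      exact ⟨hab, hac⟩
  · intro x hx
    simp only [mem_insert, mem_singleton] at hx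
    rcases hx with rfl | rfl | rfl
    · exact h1
    · exact h2
    · exact h3

/-- a set of cells without initially infected cells, each of which has at most two neighbours
outside the set, stays uninfected -/
theorem stable {A S : Finset (Cell m n)} (hd : Disjoint A S)
    (hS : ∀ v ∈ S, ∀ B : Finset (Cell m n), Disjoint B S → (∀ w ∈ B, Adj v w) → B.card ≤ 2) :
    ∀ v ∈ S, ¬ Inf A v := by
  classical
  have key : ∀ t : ℕ, Disjoint ((step 3)^[t] A) S := by
    intro t
    induction t with
    | zero => exact hd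
    | succ t ih =>
      rw [Function.iterate_succ_apply', disjoint_left]
      intro v hv hvS
      rw [mem_step] at hv
      rcases hv with hv | ⟨B, hB, hc, hw⟩
      · exact (disjoint_left.1 ih) hv hvS
      · have := hS v hvS B (Disjoint.mono_left hB ih) hw
        omega
  rintro v hv ⟨t, ht⟩
  exact (disjoint_left.1 (key t)) ht hv

theorem infects_iff (A : Finset (Cell m n)) : Infects 3 A ↔ ∀ v, Inf A v := Iff.rfl

/-- if no cell outside `A` has three neighbours in `A` then nothing happens -/
theorem eq_univ_of_infects {A : Finset (Cell m n)} (h : Infects 3 A)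
    (hA : ∀ v, v ∉ A → ∀ B : Finset (Cell m n), B ⊆ A → (∀ w ∈ B, Adj v w) → B.card ≤ 2) :
    A = univ := by
  classical
  have h1 := stable (A := A) (S := univ \ A) disjoint_sdiff (by
    intro v hv B hB hw
    refine hA v (mem_sdiff.1 hv).2 B ?_ hw
    intro x hx
    by_contra hxA
    exact (disjoint_left.1 hB) hx (mem_sdiff.2 ⟨mem_univ _, hxA⟩))
  by_contra hne
  obtain ⟨v, hv⟩ : ∃ v, v ∉ A := by
    by_contra hcon
    push Not at hcon
    exact hne (eq_univ_iff_forall.2 hcon)
  exact h1 v (mem_sdiff.2 ⟨mem_univ _, hv⟩) (h v)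

end Basic

section Swap

variable {m n : ℕ}

/-- exchange of rows and columns -/
def swap (m n : ℕ) : Cell m n ↪ Cell n m := (Equiv.prodComm (Fin m) (Fin n)).toEmbedding

theorem adj_swap (p q : Cell m n) : Adj (swap m n p) (swap m n q) ↔ Adj p q := by
  unfold Adj swap
  simp only [Equiv.coe_toEmbedding, Equiv.prodComm_apply, Prod.fst_swap, Prod.snd_swap, ne_eq,
    Prod.swap_inj]
  tauto

theorem step_swap (r : ℕ) (A : Finset (Cell m n)) :
    step r (A.map (swap m n)) = (step r A).map (swap m n) := by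
  classical
  ext w
  obtain ⟨v, rfl⟩ : ∃ v, swap m n v = w := ⟨(w.2, w.1), rfl⟩
  rw [mem_step, mem_map', mem_map', mem_step]
  constructor
  · rintro (h | ⟨B, hB, hc, hw⟩)
    · exact Or.inl h
    · right
      rw [subset_map_iff] at hB
      obtain ⟨C, hC, rfl⟩ := hB
      refine ⟨C, hC, by simpa using hc, fun x hx => ?_⟩
      exact (adj_swap v x).1 (hw _ (mem_map_of_mem _ hx))
  · rintro (h | ⟨B, hB, hc, hw⟩)
    · exact Or.inl h
    · right
      refine ⟨B.map (swap m n), map_subset_map.2 hB, by simpa using hc, fun x hx => ?_⟩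
      rw [mem_map] at hx
      obtain ⟨y, hy, rfl⟩ := hx
      exact (adj_swap v y).2 (hw y hy)

theorem infects_swap {r : ℕ} {A : Finset (Cell m n)} (h : Infects r A) :
    Infects r (A.map (swap m n)) := by
  have key : ∀ t : ℕ, (step r)^[t] (A.map (swap m n)) = ((step r)^[t] A).map (swap m n) := by
    intro t
    induction t with
    | zero => rfl
    | succ t ih => rw [Function.iterate_succ_apply', Function.iterate_succ_apply', ih, step_swap]
  intro w
  obtain ⟨v, rfl⟩ : ∃ v, swap m n v = w := ⟨(w.2, w.1), rfl⟩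
  obtain ⟨t, ht⟩ := h v
  exact ⟨t, by rw [key]; exact mem_map_of_mem _ ht⟩

theorem m3_comm (m n : ℕ) : m3 m n = m3 n m := by
  unfold m3
  congr 1
  ext k
  simp only [Set.mem_ofPred_eq]
  constructor
  · rintro ⟨A, hA, h⟩
    exact ⟨A.map (swap m n), by simpa using hA, infects_swap h⟩
  · rintro ⟨A, hA, h⟩
    exact ⟨A.map (swap n m), by simpa using hA, infects_swap h⟩

end Swap

theorem infects_univ (m n : ℕ) : Infects 3 (univ : Finset (Cell m n)) := fun v => ⟨0, mem_univ v⟩

theorem m3_le {m n : ℕ} {A : Finset (Cell m n)} (h : Infects 3 A) : m3 m n ≤ A.card :=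
  Nat.sInf_le ⟨A, rfl, h⟩

theorem le_m3 {m n k : ℕ} (h : ∀ A : Finset (Cell m n), Infects 3 A → k ≤ A.card) : k ≤ m3 m n := by
  unfold m3
  apply le_csInf
  · exact ⟨_, univ, rfl, infects_univ m n⟩
  · rintro _ ⟨A, rfl, hA⟩
    exact h A hA

section Coordinates

variable {m n : ℕ} (A : Finset (Cell m n))

/-- the cell `(i, j)` exists and becomes infected -/
def I (i j : ℕ) : Prop := ∃ (hi : i < m) (hj : j < n), Inf A (⟨i, hi⟩, ⟨j, hj⟩)

variable {A}

theorem I_three {i j i₁ j₁ i₂ j₂ i₃ j₃ : ℕ} (hi : i < m) (hj : j < n) (h1 : I A i₁ j₁)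
    (h2 : I A i₂ j₂) (h3 : I A i₃ j₃)
    (h12 : i₁ ≠ i₂ ∨ j₁ ≠ j₂) (h13 : i₁ ≠ i₃ ∨ j₁ ≠ j₃) (h23 : i₂ ≠ i₃ ∨ j₂ ≠ j₃)
    (a1 : (i ≠ i₁ ∨ j ≠ j₁) ∧ i ≤ i₁ + 1 ∧ i₁ ≤ i + 1 ∧ j ≤ j₁ + 1 ∧ j₁ ≤ j + 1)
    (a2 : (i ≠ i₂ ∨ j ≠ j₂) ∧ i ≤ i₂ + 1 ∧ i₂ ≤ i + 1 ∧ j ≤ j₂ + 1 ∧ j₂ ≤ j + 1)
    (a3 : (i ≠ i₃ ∨ j ≠ j₃) ∧ i ≤ i₃ + 1 ∧ i₃ ≤ i + 1 ∧ j ≤ j₃ + 1 ∧ j₃ ≤ j + 1) : I A i j := by
  obtain ⟨hi1, hj1, h1⟩ := h1
  obtain ⟨hi2, hj2, h2⟩ := h2
  obtain ⟨hi3, hj3, h3⟩ := h3
  have ne : ∀ {a b c d : ℕ} (ha : a < m) (hb : b < n) (hc : c < m) (hd : d < n),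
      (a ≠ c ∨ b ≠ d) → ((⟨a, ha⟩, ⟨b, hb⟩) : Cell m n) ≠ (⟨c, hc⟩, ⟨d, hd⟩) := by
    intro a b c d ha hb hc hd h he
    rw [Prod.mk.injEq, Fin.mk.injEq, Fin.mk.injEq] at he
    omega
  have ad : ∀ {c d : ℕ} (hc : c < m) (hd : d < n),
      ((i ≠ c ∨ j ≠ d) ∧ i ≤ c + 1 ∧ c ≤ i + 1 ∧ j ≤ d + 1 ∧ d ≤ j + 1) →
      Adj ((⟨i, hi⟩, ⟨j, hj⟩) : Cell m n) (⟨c, hc⟩, ⟨d, hd⟩) := by
    intro c d hc hd h
    refine ⟨ne hi hj hc hd h.1, ?_, ?_⟩
    · rw [abs_le]
      constructor <;> dsimp only <;> omega
    · rw [abs_le]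
      constructor <;> dsimp only <;> omega
  exact ⟨hi, hj, Inf.of_three h1 h2 h3 (ne _ _ _ _ h12) (ne _ _ _ _ h13) (ne _ _ _ _ h23)
    (ad _ _ a1) (ad _ _ a2) (ad _ _ a3)⟩

theorem infects_of_I (h : ∀ i < m, ∀ j < n, I A i j) : Infects 3 A := by
  rintro ⟨⟨i, hi⟩, ⟨j, hj⟩⟩
  obtain ⟨_, _, h⟩ := h i hi j hj
  exact h

end Coordinates

/-! ### Boards with at least three rows and columns -/

theorem upper_three {m n : ℕ} (hm : 3 ≤ m) (hn : 3 ≤ n) : m3 m n ≤ 3 := by
  classical
  set A : Finset (Cell m n) := {(⟨0, by omega⟩, ⟨0, by omega⟩), (⟨0, by omega⟩, ⟨1, by omega⟩),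
    (⟨0, by omega⟩, ⟨2, by omega⟩)} with hA
  have hcard : A.card ≤ 3 := card_le_three
  refine le_trans (m3_le (A := A) (infects_of_I ?_)) hcard
  have h00 : I A 0 0 := ⟨by omega, by omega, Inf.of_mem (by rw [hA]; simp)⟩
  have h01 : I A 0 1 := ⟨by omega, by omega, Inf.of_mem (by rw [hA]; simp)⟩
  have h02 : I A 0 2 := ⟨by omega, by omega, Inf.of_mem (by rw [hA]; simp)⟩
  have rows : ∀ i < m, I A i 0 ∧ I A i 1 ∧ I A i 2 := by
    intro i
    induction i with
    | zero => intro _; exact ⟨h00, h01, h02⟩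
    | succ i ih =>
      intro hi
      obtain ⟨a, b, c⟩ := ih (by omega)
      have h1 : I A (i + 1) 1 := I_three hi (by omega) a b c (by omega) (by omega) (by omega)
        (by omega) (by omega) (by omega)
      refine ⟨I_three hi (by omega) a b h1 (by omega) (by omega) (by omega) (by omega) (by omega)
        (by omega), h1, I_three hi (by omega) b c h1 (by omega) (by omega) (by omega) (by omega)
        (by omega) (by omega)⟩
  have cols : ∀ j < n, ∀ i < m, I A i j := by
    intro j
    induction j with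
    | zero => intro _ i hi; exact (rows i hi).1
    | succ j ih =>
      intro hj
      by_cases h1 : j = 0
      · subst h1
        exact fun i hi => (rows i hi).2.1
      by_cases h2 : j = 1
      · subst h2
        exact fun i hi => (rows i hi).2.2
      have ih := ih (by omega)
      have mid : ∀ i, 1 ≤ i → i + 1 < m → I A i (j + 1) := by
        intro i hi1 hi2
        exact I_three (by omega) hj (ih (i - 1) (by omega)) (ih i (by omega))
          (ih (i + 1) (by omega)) (by omega) (by omega) (by omega) (by omega) (by omega) (by omega)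
      intro i hi
      by_cases hi0 : i = 0
      · subst hi0
        exact I_three hi hj (ih 0 hi) (ih 1 (by omega)) (mid 1 le_rfl (by omega)) (by omega)
          (by omega) (by omega) (by omega) (by omega) (by omega)
      by_cases hi1 : i + 1 < m
      · exact mid i (by omega) hi1
      · exact I_three hi hj (ih i hi) (ih (i - 1) (by omega)) (mid (i - 1) (by omega) (by omega))
          (by omega) (by omega) (by omega) (by omega) (by omega) (by omega)
  exact fun i hi j hj => cols j hj i hi

theorem lower_three {m n : ℕ} (hmn : 3 ≤ m * n) : 3 ≤ m3 m n := by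
  refine le_m3 fun A hA => ?_
  by_contra hlt
  have := eq_univ_of_infects hA (fun v _ B hB _ => by
    have := card_le_card hB
    omega)
  rw [this, card_univ, Fintype.card_prod, Fintype.card_fin, Fintype.card_fin] at hlt
  omega

/-! ### Boards with one row -/

theorem one_row (n : ℕ) : m3 1 n = n := by
  classical
  apply le_antisymm
  · have := m3_le (infects_univ 1 n)
    rwa [card_univ, Fintype.card_prod, Fintype.card_fin, Fintype.card_fin, one_mul] at this
  · refine le_m3 fun A hA => ?_
    have h := eq_univ_of_infects hA (fun v _ B _ hw => by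
      have h1 : B.card ≤ ({((v.2 : ℕ) : ℤ) - 1, ((v.2 : ℕ) : ℤ) + 1} : Finset ℤ).card := by
        refine card_le_card_of_injOn (fun w => ((w.2 : ℕ) : ℤ)) ?_ ?_
        · intro w hwB
          obtain ⟨hne, -, h2⟩ := hw w hwB
          have hne' : ((v.2 : ℕ) : ℤ) ≠ ((w.2 : ℕ) : ℤ) := by
            intro he
            apply hne
            apply Prod.ext
            · exact Subsingleton.elim _ _
            · exact Fin.ext (by exact_mod_cast he)
          rw [abs_le] at h2
          simp only [coe_insert, coe_singleton, Set.mem_insert_iff, Set.mem_singleton_iff]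
          omega
        · intro x _ y _ hxy
          have hxy : ((x.2 : ℕ) : ℤ) = ((y.2 : ℕ) : ℤ) := hxy
          apply Prod.ext
          · exact Subsingleton.elim _ _
          · exact Fin.ext (by exact_mod_cast hxy)
      exact h1.trans card_le_two)
    rw [h, card_univ, Fintype.card_prod, Fintype.card_fin, Fintype.card_fin, one_mul]

/-! ### Boards with two rows -/

theorem upper_two {n : ℕ} (hn : 1 ≤ n) : m3 2 n ≤ n / 2 + 2 := by
  classical
  set A : Finset (Cell 2 n) := insert (⟨1, by omega⟩, ⟨0, by omega⟩)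
    ((range (n / 2 + 1)).image fun k : ℕ =>
      ((⟨0, by omega⟩, ⟨min (2 * k) (n - 1), by omega⟩) : Cell 2 n)) with hA
  have hcard : A.card ≤ n / 2 + 2 := by
    rw [hA]
    refine (card_insert_le _ _).trans ?_
    have h1 : ((range (n / 2 + 1)).image fun k : ℕ =>
      ((⟨0, by omega⟩, ⟨min (2 * k) (n - 1), by omega⟩) : Cell 2 n)).card ≤ n / 2 + 1 := by
      refine card_image_le.trans ?_
      rw [card_range]
    omega
  refine le_trans (m3_le (A := A) (infects_of_I ?_)) hcard
  have h10 : I A 1 0 := ⟨by omega, by omega, Inf.of_mem (by rw [hA]; simp)⟩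
  have hk : ∀ k ≤ n / 2, I A 0 (min (2 * k) (n - 1)) := by
    intro k hk
    refine ⟨by omega, by omega, Inf.of_mem ?_⟩
    rw [hA]
    apply mem_insert_of_mem
    rw [mem_image]
    exact ⟨k, mem_range.2 (by omega), rfl⟩
  have h00 : I A 0 0 := by
    have := hk 0 (by omega)
    rwa [mul_zero, Nat.zero_min] at this
  have main : ∀ j < n, I A 0 j ∧ I A 1 j := by
    intro j
    induction j with
    | zero => intro _; exact ⟨h00, h10⟩
    | succ j ih =>
      intro hj
      obtain ⟨a, b⟩ := ih (by omega)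
      have h0 : I A 0 (j + 1) := by
        by_cases hpar : (j + 1) % 2 = 0
        · have := hk ((j + 1) / 2) (by omega)
          rwa [show min (2 * ((j + 1) / 2)) (n - 1) = j + 1 by omega] at this
        · by_cases hlast : j + 1 = n - 1
          · have := hk (n / 2) le_rfl
            rwa [show min (2 * (n / 2)) (n - 1) = j + 1 by omega] at this
          · have h2 := hk ((j + 2) / 2) (by omega)
            rw [show min (2 * ((j + 2) / 2)) (n - 1) = j + 2 by omega] at h2
            exact I_three (by omega) hj a b h2 (by omega) (by omega) (by omega) (by omega)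
              (by omega) (by omega)
      exact ⟨h0, I_three (by omega) hj a b h0 (by omega) (by omega) (by omega) (by omega)
        (by omega) (by omega)⟩
  intro i hi j hj
  interval_cases i
  · exact (main j hj).1
  · exact (main j hj).2

theorem card_col {n c : ℕ} {B : Finset (Cell 2 n)} (h : ∀ w ∈ B, (w.2 : ℕ) = c) : B.card ≤ 2 := by
  have : B.card ≤ (univ : Finset (Fin 2)).card := by
    refine card_le_card_of_injOn (fun w => w.1) (fun _ _ => mem_coe.2 (mem_univ _)) ?_
    intro x hx y hy hxy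
    exact Prod.ext hxy (Fin.ext ((h x hx).trans (h y hy).symm))
  rwa [card_univ, Fintype.card_fin] at this

open Classical in
/-- number of initially infected cells in the column `j` -/
noncomputable def c {n : ℕ} (A : Finset (Cell 2 n)) (j : ℕ) : ℕ :=
  (A.filter fun w => (w.2 : ℕ) = j).card

theorem sum_c {n : ℕ} (A : Finset (Cell 2 n)) (L U : ℕ) (B : Finset (Cell 2 n)) (hB : B ⊆ A)
    (hcol : ∀ w ∈ B, L ≤ (w.2 : ℕ) ∧ (w.2 : ℕ) < U) : B.card ≤ ∑ j ∈ Ico L U, c A j := by
  classical
  rw [card_eq_sum_card_fiberwise (f := fun w : Cell 2 n => (w.2 : ℕ)) (t := Ico L U)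
    (fun w hw => by
      rw [mem_coe, mem_Ico]
      exact hcol w hw)]
  refine sum_le_sum fun j _ => ?_
  unfold c
  refine card_le_card ?_
  intro w hw
  rw [mem_filter] at hw ⊢
  exact ⟨hB hw.1, hw.2⟩

theorem sum_c_le {n : ℕ} (A : Finset (Cell 2 n)) : ∑ j ∈ Ico 0 n, c A j ≤ A.card := by
  classical
  rw [card_eq_sum_card_fiberwise (f := fun w : Cell 2 n => (w.2 : ℕ)) (t := Ico 0 n)
    (fun w _ => by
      rw [mem_coe, mem_Ico]
      exact ⟨Nat.zero_le _, w.2.2⟩)]
  refine sum_le_sum fun j _ => ?_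
  unfold c
  refine card_le_card ?_
  intro w hw
  rw [mem_filter] at hw ⊢
  exact hw

/-- the columns `L, ..., U - 1` contain an initially infected cell if every column among them has at
most one neighbouring column outside -/
theorem block {n : ℕ} {A : Finset (Cell 2 n)} (hA : Infects 3 A) (L U : ℕ) (hLU : L < U)
    (hU : U ≤ n) (hb : ∀ j, L ≤ j → j < U →
      ∃ k : ℕ, ∀ l < n, l ≤ j + 1 → j ≤ l + 1 → (L ≤ l ∧ l < U) ∨ l = k) :
    1 ≤ ∑ j ∈ Ico L U, c A j := by
  classical
  by_contra hcon
  have h0 : ∑ j ∈ Ico L U, c A j = 0 := by omega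
  have hnone : ∀ w ∈ A, ¬ (L ≤ (w.2 : ℕ) ∧ (w.2 : ℕ) < U) := by
    intro w hw hwc
    have := sum_c A L U {w} (by simpa using hw) (by
      intro x hx
      rw [mem_singleton] at hx
      subst hx
      exact hwc)
    rw [card_singleton] at this
    omega
  set S : Finset (Cell 2 n) := univ.filter fun w => L ≤ (w.2 : ℕ) ∧ (w.2 : ℕ) < U with hS
  have hd : Disjoint A S := by
    rw [disjoint_left]
    intro w hw hwS
    exact hnone w hw (mem_filter.1 hwS).2
  have hst := stable hd (by
    intro v hv B hB hw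
    obtain ⟨k, hk⟩ := hb (v.2 : ℕ) (mem_filter.1 hv).2.1 (mem_filter.1 hv).2.2
    refine card_col (c := k) fun w hwB => ?_
    obtain ⟨-, -, h2⟩ := hw w hwB
    rw [abs_le] at h2
    rcases hk (w.2 : ℕ) w.2.2 (by omega) (by omega) with h | h
    · have hwS : w ∈ S := mem_filter.2 ⟨mem_univ _, h⟩
      exact absurd hwS ((disjoint_left.1 hB) hwB)
    · exact h)
  have hv : ((⟨0, by omega⟩, ⟨L, by omega⟩) : Cell 2 n) ∈ S :=
    mem_filter.2 ⟨mem_univ _, le_rfl, hLU⟩
  exact hst _ hv (hA _)

theorem first_col {n : ℕ} {A : Finset (Cell 2 n)} (hA : Infects 3 A) (hn : 1 ≤ n) : 1 ≤ c A 0 := by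
  have := block hA 0 1 (by omega) hn (fun j _ hj => ⟨1, fun l _ h1 h2 => by omega⟩)
  simpa using this

theorem last_col {n : ℕ} {A : Finset (Cell 2 n)} (hA : Infects 3 A) (hn : 1 ≤ n) :
    1 ≤ c A (n - 1) := by
  have := block hA (n - 1) n (by omega) le_rfl (fun j _ hj => ⟨n - 2, fun l _ h1 h2 => by omega⟩)
  rw [show Ico (n - 1) n = {n - 1} by
    ext x
    rw [mem_Ico, mem_singleton]
    omega, sum_singleton] at this
  exact this

theorem two_cols {n : ℕ} {A : Finset (Cell 2 n)} (hA : Infects 3 A) (j : ℕ) (hj : j + 1 < n) :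
    1 ≤ c A j + c A (j + 1) := by
  have := block hA j (j + 2) (by omega) (by omega) (fun i hi1 hi2 => by
    by_cases h : i = j
    · exact ⟨j - 1, fun l _ h1 h2 => by omega⟩
    · exact ⟨j + 2, fun l _ h1 h2 => by omega⟩)
  rw [show Ico j (j + 2) = {j, j + 1} by
    ext x
    rw [mem_Ico, mem_insert, mem_singleton]
    omega, sum_pair (by omega)] at this
  exact this

theorem prefix_le {n : ℕ} {A : Finset (Cell 2 n)} (hA : Infects 3 A) (hn : 1 ≤ n) (a : ℕ) :
    a ≤ n → (a + 1) / 2 ≤ ∑ j ∈ Ico 0 a, c A j := by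
  induction a using Nat.strong_induction_on with
  | _ a ih =>
    intro ha
    by_cases h0 : a = 0
    · subst h0; simp
    by_cases h1 : a = 1
    · subst h1
      simpa using first_col hA hn
    · obtain ⟨b, rfl⟩ : ∃ b, a = b + 2 := ⟨a - 2, by omega⟩
      have h2 := ih b (by omega) (by omega)
      have h3 := two_cols hA b (by omega)
      rw [sum_Ico_succ_top (by omega), sum_Ico_succ_top (by omega)]
      omega

theorem suffix_le {n : ℕ} {A : Finset (Cell 2 n)} (hA : Infects 3 A) (hn : 1 ≤ n) (a : ℕ) :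
    a ≤ n → (a + 1) / 2 ≤ ∑ j ∈ Ico (n - a) n, c A j := by
  induction a using Nat.strong_induction_on with
  | _ a ih =>
    intro ha
    by_cases h0 : a = 0
    · subst h0; simp
    by_cases h1 : a = 1
    · subst h1
      rw [show Ico (n - 1) n = {n - 1} by
        ext x
        rw [mem_Ico, mem_singleton]
        omega, sum_singleton]
      have := last_col hA hn
      omega
    · obtain ⟨b, rfl⟩ : ∃ b, a = b + 2 := ⟨a - 2, by omega⟩
      have h2 := ih b (by omega) (by omega)
      have h3 := two_cols hA (n - (b + 2)) (by omega)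
      rw [sum_eq_sum_Ico_succ_bot (by omega), sum_eq_sum_Ico_succ_bot (by omega),
        show n - (b + 2) + 1 + 1 = n - b by omega]
      omega

theorem lower_two {n : ℕ} (hn : 1 ≤ n) : n / 2 + 2 ≤ m3 2 n := by
  refine le_m3 fun A hA => ?_
  by_cases hex : ∃ v, v ∉ A ∧ ∃ B : Finset (Cell 2 n), B ⊆ A ∧ (∀ w ∈ B, Adj v w) ∧ 3 ≤ B.card
  · obtain ⟨v, -, B, hB, hw, hc⟩ := hex
    set j : ℕ := (v.2 : ℕ) with hj
    have hjn : j < n := v.2.2
    set L := j - 1 with hL
    set U := min (j + 2) n with hU
    have h1 := prefix_le hA hn L (by omega)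
    have h2 := suffix_le hA hn (n - U) (by omega)
    rw [show n - (n - U) = U by omega] at h2
    have h3 := sum_c A L U B hB (fun w hwB => by
      obtain ⟨-, -, h4⟩ := hw w hwB
      rw [abs_le] at h4
      have := w.2.2
      omega)
    have h4 := sum_c_le A
    rw [← sum_Ico_consecutive _ (Nat.zero_le L) (by omega : L ≤ n),
      ← sum_Ico_consecutive _ (by omega : L ≤ U) (by omega : U ≤ n)] at h4
    omega
  · push Not at hex
    have h := eq_univ_of_infects hA (fun v hv B hB hw => by
      have := hex v hv B hB hw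
      omega)
    rw [h, card_univ, Fintype.card_prod, Fintype.card_fin, Fintype.card_fin]
    omega

theorem two_rows {n : ℕ} (hn : 1 ≤ n) : m3 2 n = n / 2 + 2 :=
  le_antisymm (upper_two hn) (lower_two hn)

/-- **The minimum size of an infecting set, for all `m, n ≥ 1`.** -/
theorem result (m n : ℕ) (hm : 1 ≤ m) (hn : 1 ≤ n) :
    m3 m n = if min m n = 1 then max m n else if min m n = 2 then max m n / 2 + 2 else 3 := by
  have key : ∀ m n : ℕ, 1 ≤ m → m ≤ n →
      m3 m n = if m = 1 then n else if m = 2 then n / 2 + 2 else 3 := by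
    intro m n hm hmn
    by_cases h1 : m = 1
    · subst h1
      rw [if_pos rfl, one_row]
    by_cases h2 : m = 2
    · subst h2
      rw [if_neg (by omega), if_pos rfl, two_rows (by omega)]
    · rw [if_neg h1, if_neg h2]
      refine le_antisymm (upper_three (by omega) (by omega)) (lower_three ?_)
      have h3 : 3 * 1 ≤ m * n := Nat.mul_le_mul (by omega) (by omega)
      omega
  rcases le_total m n with h | h
  · rw [min_eq_left h, max_eq_right h]
    exact key m n hm h
  · rw [min_eq_right h, max_eq_left h, m3_comm]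
    exact key n m hn h

end Pool.Agent.Results.MP_87c242_co.ExactValues
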